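import Pool.Agent.Lib.MP_efc3dd_lc.Main

set_option autoImplicit false

/-!
# The Scott rank bound `α + 2` for `Π_α` theories of trees is never sharp

For every countable ordinal `α ≥ 1`, every nonempty `Π_α`-axiomatizable class of countable trees
contains a tree with a `Π_{α+2}` Scott sentence, that is, of Scott rank at most `α + 1`.

Proof outline (files in `Pool/Agent/Lib/MP_efc3dd_lc`). `BF`: back-and-forth relations `≤_β` for
trees of lists. `Pres`: preservation and separation of `Π_β` formulas. `Comp`: composition of
positions in the subtrees above the root. `Unf`: unfolding a system of states whose one-step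
modifications are `≤_β`-related. `Local`, `First` (successor `α = γ + 1`): every child whose
subtree has a tuple that is realised up to `≤_γ` in only finitely many siblings is kept (the tuple
being protected further up); of the other children, infinitely many copies of one representative
for each `≡_γ` class are taken. `Rep`: siblings with `≡_α` subtrees are made isomorphic.
`GoodScott`: in the resulting tree the orbits are `Σ_{α+1}`-definable, which gives a `Π_{α+2}`
Scott sentence.
-/

namespace Pool.Agent.Results.MP_efc3dd_lc.BoundNeverSharp

open Pool.Agent.Lib.MP_efc3dd_lc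

theorem result (α : Ordinal.{0}) (h1 : 1 ≤ α) (_hα : α < Ordinal.omega 1) (φ : Fm 0)
    (hφ : Lvl false α φ)
    (hne : ∃ (M : Type) (r : M → M → Prop), Countable M ∧ IsTree r ∧ φ.Realize r ![]) :
    ∃ (M : Type) (r : M → M → Prop), Countable M ∧ IsTree r ∧ φ.Realize r ![] ∧
      ∃ β ≤ α + 1, ∃ ψ : Fm 0, Lvl false (β + 1) ψ ∧ IsScottSentence r ψ := by
  obtain ⟨M, r, hM, hr, hφM⟩ := hne
  obtain ⟨N, s, hN, hs, hφN, ψ, hψ, hS⟩ := main h1 hφ hr hφM
  exact ⟨N, s, hN, hs, hφN, α + 1, le_rfl, ψ, hψ, hS⟩

end Pool.Agent.Results.MP_efc3dd_lc.BoundNeverSharp
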